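import Mathlib

/-!
A clique of minimal span and a double covering count on the line.
-/

set_option autoImplicit false

namespace Pool.Agent.FS.OneClique

open Finset

/-- There are `s` pairwise related integers in an interval of length `d`. -/
def Cq (A : ℤ → ℤ → Prop) (s d : ℕ) : Prop :=
  ∃ (a : ℤ) (T : Finset ℤ), T.card = s ∧ (∀ x ∈ T, ∀ y ∈ T, x ≠ y → A x y) ∧
    ∀ x ∈ T, a ≤ x ∧ x ≤ a + d

theorem cq_insert {A : ℤ → ℤ → Prop} (hs : ∀ x y, A x y → A y x) (hi : ∀ x, ¬ A x x)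
    {T : Finset ℤ} (hT : ∀ x ∈ T, ∀ y ∈ T, x ≠ y → A x y) {y a : ℤ} {d : ℕ}
    (hy : ∀ x ∈ T, A x y) (h1 : ∀ x ∈ T, a ≤ x ∧ x ≤ a + d) (h2 : a ≤ y ∧ y ≤ a + d) :
    Cq A (T.card + 1) d := by
  have hn : y ∉ T := fun h => hi y (hy y h)
  refine ⟨a, insert y T, card_insert_of_notMem hn, ?_, ?_⟩
  · intro u hu v hv huv
    rcases mem_insert.1 hu with h3 | h3 <;> rcases mem_insert.1 hv with h4 | h4
    · exact absurd (h3.trans h4.symm) huv
    · rw [h3]; exact hs _ _ (hy v h4)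
    · rw [h4]; exact hy u h3
    · exact hT u h3 v h4 huv
  · intro u hu
    rcases mem_insert.1 hu with h3 | h3
    · rw [h3]; exact h2
    · exact h1 u h3

open Classical in
theorem cq_step {A : ℤ → ℤ → Prop} (hs : ∀ x y, A x y → A y x) (hi : ∀ x, ¬ A x x)
    {k c s : ℕ} (hc : ∀ x : ℤ, ((Icc (x - k) (x + k)).filter fun y => ¬ A x y).card ≤ c)
    (h2 : 2 ≤ s) (hk : (s - 1) * c < k) (h : Cq A s k) : Cq A (s + 1) k := by
  have hex : ∃ d, Cq A s d := ⟨k, h⟩
  have hdk : Nat.find hex ≤ k := Nat.find_min' hex h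
  have hmin : ∀ e < Nat.find hex, ¬ Cq A s e := fun e he => Nat.find_min hex he
  obtain ⟨a, T, hT, hA, hI⟩ := Nat.find_spec hex
  generalize Nat.find hex = d at hdk hmin hI
  have hd : 1 ≤ d := by
    by_contra h0
    have h3 : T ⊆ {a} := fun x hx => mem_singleton.2 (by have := hI x hx; omega)
    have h4 := card_le_card h3
    rw [card_singleton] at h4
    omega
  obtain ⟨e, rfl⟩ : ∃ e, d = e + 1 := ⟨d - 1, by omega⟩
  have hm := hmin e (by omega)
  obtain ⟨b, hb0⟩ : ∃ b : ℤ, b = a + (e + 1) := ⟨_, rfl⟩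
  have hI' : ∀ x ∈ T, a ≤ x ∧ x ≤ b := fun x hx => by
    have h1 := hI x hx
    push_cast at h1
    omega
  have ha : a ∈ T := by
    by_contra hn
    refine hm ⟨a + 1, T, hT, hA, fun x hx => ?_⟩
    have h1 := hI' x hx
    have h3 : x ≠ a := fun h => hn (h ▸ hx)
    omega
  have hb : b ∈ T := by
    by_contra hn
    refine hm ⟨a, T, hT, hA, fun x hx => ?_⟩
    have h1 := hI' x hx
    have h3 : x ≠ b := fun h => hn (h ▸ hx)
    omega
  by_contra hcon
  obtain ⟨U, hU0⟩ : ∃ U : ℤ → Finset ℤ, ∀ z, U z = (T.erase z).biUnion fun x =>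
      (Icc (x - k) (x + k)).filter fun y => ¬ A x y := ⟨_, fun _ => rfl⟩
  have hU : ∀ z ∈ T, (U z).card ≤ (s - 1) * c := fun z hz => by
    rw [hU0]
    refine card_biUnion_le.trans ?_
    refine (sum_le_card_nsmul _ _ c fun x _ => hc x).trans ?_
    rw [card_erase_of_mem hz, hT, smul_eq_mul]
  have hmem : ∀ z x y, x ∈ T → x ≠ z → b - k ≤ y → y ≤ a + k → ¬ A x y → y ∈ U z := by
    intro z x y hx hz h3 h4 h5
    have h1 := hI' x hx
    rw [hU0]
    exact mem_biUnion.2 ⟨x, mem_erase.2 ⟨hz, hx⟩,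
      mem_filter.2 ⟨mem_Icc.2 ⟨by omega, by omega⟩, h5⟩⟩
  have hW : Icc (b - k) (a + k) ⊆ U a ∪ U b := by
    intro y hy
    obtain ⟨h3, h4⟩ := mem_Icc.1 hy
    by_cases hy : ∀ x ∈ T, A x y
    · exfalso
      apply hcon
      rw [← hT]
      refine cq_insert (a := min a y) hs hi hA hy (fun x hx => ?_) (by omega)
      have h1 := hI' x hx
      omega
    · push Not at hy
      obtain ⟨x, hx, h5⟩ := hy
      by_cases h6 : x = a
      · exact mem_union_right _ (hmem b x y hx (by omega) h3 h4 h5)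
      · exact mem_union_left _ (hmem a x y hx h6 h3 h4 h5)
  have hin : ∀ z ∈ T, ∀ a' : ℤ, (∀ x ∈ T, x ≠ z → a' ≤ x ∧ x ≤ a' + e) → ∀ y, a' ≤ y →
      y ≤ a' + e → b - k ≤ y → y ≤ a + k → y ∈ U z := by
    intro z hz a' h1 y h3 h4 h5 h6
    by_cases hy : ∀ x ∈ T.erase z, A x y
    · exfalso
      apply hm
      have h7 : s = (T.erase z).card + 1 := by rw [card_erase_of_mem hz, hT]; omega
      rw [h7]
      exact cq_insert (a := a') hs hi
        (fun x hx w hw => hA x (mem_of_mem_erase hx) w (mem_of_mem_erase hw)) hy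
        (fun x hx => h1 x (mem_of_mem_erase hx) (ne_of_mem_erase hx)) ⟨h3, h4⟩
    · push Not at hy
      obtain ⟨x, hx, h7⟩ := hy
      exact hmem z x y (mem_of_mem_erase hx) (ne_of_mem_erase hx) h5 h6 h7
  have hO : Ioo a b ⊆ U a ∩ U b := by
    intro y hy
    obtain ⟨h3, h4⟩ := mem_Ioo.1 hy
    refine mem_inter.2 ⟨hin a ha (a + 1) (fun x hx h5 => ?_) y (by omega) (by omega) (by omega)
      (by omega), hin b hb a (fun x hx h5 => ?_) y (by omega) (by omega) (by omega) (by omega)⟩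
    · have h1 := hI' x hx
      omega
    · have h1 := hI' x hx
      omega
  have e1 := card_union_add_card_inter (U a) (U b)
  have e2 := card_le_card hW
  have e3 := card_le_card hO
  have e4 := hU a ha
  have e5 := hU b hb
  rw [Int.card_Icc] at e2
  rw [Int.card_Ioo] at e3
  omega

open Classical in
theorem cq_all {A : ℤ → ℤ → Prop} (hs : ∀ x y, A x y → A y x) (hi : ∀ x, ¬ A x x)
    {k c : ℕ} (hc : ∀ x : ℤ, ((Icc (x - k) (x + k)).filter fun y => ¬ A x y).card ≤ c)
    (hck : c < k) (j : ℕ) (hk : j * c < k) : Cq A (j + 2) k := by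
  induction j with
  | zero =>
    by_contra hcon
    have h1 : Icc ((0 : ℤ) - k) (0 + k) ⊆
        (Icc ((0 : ℤ) - k) (0 + k)).filter fun y => ¬ A 0 y := by
      intro y hy
      refine mem_filter.2 ⟨hy, fun h => hcon ?_⟩
      obtain ⟨h3, h4⟩ := mem_Icc.1 hy
      have h5 := cq_insert (T := {0}) (y := y) (a := min 0 y) (d := k) hs hi
        (fun x hx w hw h6 => absurd ((mem_singleton.1 hx).trans (mem_singleton.1 hw).symm) h6)
        (fun x hx => by rw [mem_singleton.1 hx]; exact h)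
        (fun x hx => by rw [mem_singleton.1 hx]; omega) (by omega)
      rwa [card_singleton] at h5
    have h2 := (card_le_card h1).trans (hc 0)
    rw [Int.card_Icc] at h2
    omega
  | succ j ih =>
    exact cq_step hs hi hc (by omega) hk
      (ih (lt_of_le_of_lt (Nat.mul_le_mul_right c (Nat.le_succ j)) hk))

end Pool.Agent.FS.OneClique
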